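import Pool.Agent.Helper69.DC.Goals

set_option autoImplicit false

namespace Pool.Agent.Helper91.DC

open MvPolynomial Finset ComplexConjugate Filter Topology

theorem ob_aux {E : Type} [NormedAddCommGroup E] [InnerProductSpace ℂ E] [FiniteDimensional ℂ E]
    (F : E → ℂ) (hF : Continuous F)
    (hline : ∀ x y : E, F y ≠ 0 → ∀ᶠ t : ℂ in 𝓝[≠] 0, F (x + t • (y - x)) ≠ 0) :
    ∀ (r : ℕ) (W : Submodule ℂ E), Module.finrank ℂ W = r → (r = 0 ∨ ∃ w ∈ W, F w ≠ 0) →
      ∃ e : Fin r → E, (∀ i, e i ∈ W) ∧ (∀ i j, i ≠ j → inner ℂ (e i) (e j) = 0) ∧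
        (∀ i, e i ≠ 0) ∧ ∀ i, F (e i) ≠ 0 := by
  intro r
  induction r with
  | zero =>
    intro W _ _
    exact ⟨Fin.elim0, fun i => i.elim0, fun i => i.elim0, fun i => i.elim0, fun i => i.elim0⟩
  | succ r ih =>
    intro W hW hw
    obtain ⟨w0, hw0, hFw0⟩ : ∃ w ∈ W, F w ≠ 0 := by
      rcases hw with h | h
      · omega
      · exact h
    -- a nonzero vector
    have hex : ∀ V : Submodule ℂ E, 0 < Module.finrank ℂ V → ∃ e ∈ V, e ≠ 0 := by
      intro V hV
      have hb : V ≠ ⊥ := by
        rintro rfl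
        simp at hV
      exact (Submodule.ne_bot_iff V).1 hb
    obtain ⟨w, hwW, hw1, hFw⟩ : ∃ w ∈ W, w ≠ 0 ∧ F w ≠ 0 := by
      obtain ⟨e, he, he0⟩ := hex W (by omega)
      have h1 := hline e w0 hFw0
      have hc : Continuous fun t : ℂ => e + t • (w0 - e) := by fun_prop
      have h2 : ∀ᶠ t : ℂ in 𝓝[≠] 0, e + t • (w0 - e) ≠ 0 := by
        have h3 : Tendsto (fun t : ℂ => e + t • (w0 - e)) (𝓝 0) (𝓝 e) := by
          have := hc.tendsto 0
          simpa using this
        exact (h3.mono_left nhdsWithin_le_nhds).eventually_ne he0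
      obtain ⟨t, ht1, ht2⟩ := (h1.and h2).exists
      exact ⟨_, W.add_mem he (W.smul_mem _ (W.sub_mem hw0 he)), ht2, ht1⟩
    have horth : ∀ v ∈ W, v ≠ 0 →
        Module.finrank ℂ ((ℂ ∙ v)ᗮ ⊓ W : Submodule ℂ E) = r := by
      intro v hv hv0
      have h1 := Submodule.finrank_add_inf_finrank_orthogonal
        (K₁ := (ℂ ∙ v)) (K₂ := W) (by simpa [Submodule.span_singleton_le_iff_mem] using hv)
      rw [finrank_span_singleton hv0] at h1
      omega
    rcases Nat.eq_zero_or_pos r with rfl | hr
    · refine ⟨fun _ => w, fun _ => hwW, ?_, fun _ => hw1, fun _ => hFw⟩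
      intro i j hij
      exact absurd (Fin.ext (by omega)) hij
    · obtain ⟨u, hu, hu0⟩ := hex ((ℂ ∙ w)ᗮ ⊓ W) (by rw [horth w hwW hw1]; exact hr)
      obtain ⟨huw, huW⟩ := Submodule.mem_inf.1 hu
      have huw' : inner ℂ u w = 0 := by
        rw [Submodule.mem_orthogonal_singleton_iff_inner_left] at huw
        exact huw
      have hc : Continuous fun t : ℂ => u + t • (w - u) := by fun_prop
      have h0 : u + (0 : ℂ) • (w - u) = u := by simp
      have f1 := hline u w hFw
      have h3 : Tendsto (fun t : ℂ => u + t • (w - u)) (𝓝 0) (𝓝 u) := by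
        have := hc.tendsto 0
        simpa using this
      have f2 : ∀ᶠ t : ℂ in 𝓝[≠] 0, u + t • (w - u) ≠ 0 :=
        (h3.mono_left nhdsWithin_le_nhds).eventually_ne hu0
      have f3 : ∀ᶠ t : ℂ in 𝓝[≠] 0,
          F (w - (inner ℂ (u + t • (w - u)) w /
            inner ℂ (u + t • (w - u)) (u + t • (w - u))) • (u + t • (w - u))) ≠ 0 := by
        have hi : Tendsto (fun t : ℂ => (inner ℂ (u + t • (w - u)) w : ℂ)) (𝓝 0) (𝓝 0) := by
          have : Continuous fun t : ℂ => (inner ℂ (u + t • (w - u)) w : ℂ) := hc.inner continuous_const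
          have := this.tendsto 0
          simpa [huw'] using this
        have hj : Tendsto (fun t : ℂ => (inner ℂ (u + t • (w - u)) (u + t • (w - u)) : ℂ)) (𝓝 0)
            (𝓝 (inner ℂ u u)) := by
          have : Continuous fun t : ℂ => (inner ℂ (u + t • (w - u)) (u + t • (w - u)) : ℂ) :=
            hc.inner hc
          have := this.tendsto 0
          simpa only [h0] using this
        have hne : (inner ℂ u u : ℂ) ≠ 0 := inner_self_ne_zero.2 hu0
        have hg : Tendsto (fun t : ℂ => w - (inner ℂ (u + t • (w - u)) w /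
            inner ℂ (u + t • (w - u)) (u + t • (w - u))) • (u + t • (w - u))) (𝓝 0) (𝓝 w) := by
          have := tendsto_const_nhds (x := w) |>.sub ((hi.div hj hne).smul h3)
          simpa using this
        have hFg := (hF.tendsto w).comp (hg.mono_left (nhdsWithin_le_nhds (s := {0}ᶜ)))
        exact hFg.eventually_ne hFw
      obtain ⟨t, ⟨ht1, ht2⟩, ht3⟩ := ((f1.and f2).and f3).exists
      set v := u + t • (w - u) with hv
      have hvW : v ∈ W := W.add_mem huW (W.smul_mem _ (W.sub_mem hwW huW))
      have hvv : (inner ℂ v v : ℂ) ≠ 0 := inner_self_ne_zero.2 ht2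
      obtain ⟨e, he1, he2, he3, he4⟩ := ih ((ℂ ∙ v)ᗮ ⊓ W) (horth v hvW ht2)
        (Or.inr ⟨w - (inner ℂ v w / inner ℂ v v) • v, by
          rw [Submodule.mem_inf]
          refine ⟨?_, W.sub_mem hwW (W.smul_mem _ hvW)⟩
          rw [Submodule.mem_orthogonal_singleton_iff_inner_right, inner_sub_right,
            inner_smul_right]
          field_simp
          ring, ht3⟩)
      have hperp : ∀ i, inner ℂ v (e i) = 0 := by
        intro i
        have := (Submodule.mem_inf.1 (he1 i)).1
        rwa [Submodule.mem_orthogonal_singleton_iff_inner_right] at this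
      have hperp' : ∀ i, inner ℂ (e i) v = 0 := by
        intro i
        rw [inner_eq_zero_symm]
        exact hperp i
      refine ⟨Fin.cons v e, ?_, ?_, ?_, ?_⟩
      · intro i
        refine Fin.cases ?_ (fun j => ?_) i
        · simpa using hvW
        · simpa using (Submodule.mem_inf.1 (he1 j)).2
      · intro i j
        refine Fin.cases ?_ (fun a => ?_) i
        · refine Fin.cases ?_ (fun b => ?_) j
          · intro h; exact absurd rfl h
          · intro _
            simpa using hperp b
        · refine Fin.cases ?_ (fun b => ?_) j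
          · intro _
            simpa using hperp' a
          · intro h
            have : a ≠ b := fun hab => h (by rw [hab])
            simpa using he2 a b this
      · intro i
        refine Fin.cases ?_ (fun j => ?_) i
        · simpa using ht2
        · simpa using he3 j
      · intro i
        refine Fin.cases ?_ (fun j => ?_) i
        · simpa using ht1
        · simpa using he4 j

/-- The values of a polynomial along a line are the values of a polynomial. -/
theorem ob_line {m : ℕ} (P : MvPolynomial (Fin m) ℂ) (x y : Fin m → ℂ) (hy : eval y P ≠ 0) :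
    ∀ᶠ t : ℂ in 𝓝[≠] 0, eval (fun i => x i + t * (y i - x i)) P ≠ 0 := by
  let Q : Polynomial ℂ := aeval (fun i => Polynomial.C (x i) +
    Polynomial.X * Polynomial.C (y i - x i)) P
  have hQ : ∀ t : ℂ, Q.eval t = eval (fun i => x i + t * (y i - x i)) P := by
    intro t
    have h1 : ∀ R : MvPolynomial (Fin m) ℂ, (aeval (fun i => Polynomial.C (x i) +
        Polynomial.X * Polynomial.C (y i - x i)) R : Polynomial ℂ).eval t
          = eval (fun i => x i + t * (y i - x i)) R := by
      intro R
      induction R using MvPolynomial.induction_on with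
      | C a => simp
      | add p q hp hq => simp only [map_add, Polynomial.eval_add, hp, hq]
      | mul_X p i hp => simp only [map_mul, Polynomial.eval_mul, hp, aeval_X, eval_X,
          Polynomial.eval_add, Polynomial.eval_C, Polynomial.eval_X]
    exact h1 P
  have hQ0 : Q ≠ 0 := by
    intro h
    apply hy
    have := hQ 1
    rw [h] at this
    simpa using this.symm
  have hfin : (Q.roots.toFinset : Set ℂ).Finite := Finset.finite_toSet _
  have h1 : ∀ᶠ t : ℂ in 𝓝[≠] 0, t ∉ (Q.roots.toFinset : Set ℂ) := by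
    have h2 : (((Q.roots.toFinset : Set ℂ) \ {0})ᶜ) ∈ 𝓝 (0 : ℂ) := by
      apply IsOpen.mem_nhds
      · exact (hfin.subset Set.sdiff_subset).isClosed.isOpen_compl
      · simp
    have h3 : ∀ᶠ t : ℂ in 𝓝[≠] 0, t ∈ (((Q.roots.toFinset : Set ℂ) \ {0})ᶜ) :=
      nhdsWithin_le_nhds h2
    have h4 : ∀ᶠ t : ℂ in 𝓝[≠] 0, t ∈ ({0}ᶜ : Set ℂ) := self_mem_nhdsWithin
    filter_upwards [h3, h4] with t ht ht0 hmem
    exact ht ⟨hmem, ht0⟩
  filter_upwards [h1] with t ht h0
  apply ht
  simp only [Finset.mem_coe, Multiset.mem_toFinset, Polynomial.mem_roots hQ0, Polynomial.IsRoot.def]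
  rw [hQ, h0]

/-- **G_OB**. -/
theorem g_ob : Pool.Agent.Helper69.DC.G_OB := by
  intro m P hP
  obtain ⟨y, hy⟩ : ∃ y : Fin m → ℂ, eval y P ≠ 0 := by
    by_contra hcon
    push Not at hcon
    exact hP (MvPolynomial.funext (by simpa using hcon))
  let F : EuclideanSpace ℂ (Fin m) → ℂ := fun x => eval (fun i => x i) P
  have hF : Continuous F := by
    have h1 : Continuous fun x : Fin m → ℂ => eval x P := MvPolynomial.continuous_eval P
    have h2 : Continuous fun x : EuclideanSpace ℂ (Fin m) => (fun i => x i : Fin m → ℂ) := by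
      fun_prop
    exact h1.comp h2
  have hline : ∀ x y : EuclideanSpace ℂ (Fin m), F y ≠ 0 →
      ∀ᶠ t : ℂ in 𝓝[≠] 0, F (x + t • (y - x)) ≠ 0 := by
    intro x y hy
    have := ob_line P (fun i => x i) (fun i => y i) hy
    simpa [F] using this
  obtain ⟨e, -, he2, he3, he4⟩ := ob_aux F hF hline m ⊤ (by simp)
    (Or.inr ⟨WithLp.toLp 2 y, by simp, by simpa [F] using hy⟩)
  refine ⟨fun i l => e i l, ?_, ?_, ?_⟩
  · intro i j hij
    have := he2 j i (Ne.symm hij)
    rw [PiLp.inner_apply] at this
    rw [← this]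
    apply Finset.sum_congr rfl
    intro l _
    simp
  · intro i h
    apply he3 i
    ext l
    exact congrFun h l
  · intro i
    exact he4 i

end Pool.Agent.Helper91.DC
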