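import Mathlib
import Pool.Agent.Helper66.DC.Goals3

/-!
Packet DC3-W: the key divisibility J_W.
-/

namespace Pool.Agent.Helper91.DC

open Finset

section core

variable {R : Type*} [CommRing R]

/-- The functional `P ↦ ∑ l (i + s) P_i`. -/
noncomputable def LL (l : ℕ → R) (s : ℕ) : Polynomial R →ₗ[R] R :=
  Polynomial.lsum fun i => LinearMap.mulLeft R (l (i + s))

lemma LL_monomial (l : ℕ → R) (s i : ℕ) (c : R) :
    LL l s (Polynomial.monomial i c) = l (i + s) * c := by
  simp [LL, Polynomial.lsum_apply]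

lemma LL_eq (l : ℕ → R) (s d : ℕ) (P : Polynomial R) (h : P.natDegree < d) :
    LL l s P = ∑ i ∈ range d, l (i + s) * P.coeff i := by
  rw [LL, Polynomial.lsum_apply, Polynomial.sum_over_range' _ _ d h]
  · rfl
  · intro i; simp

lemma LL_X_mul (l : ℕ → R) (s : ℕ) (P : Polynomial R) :
    LL l s (Polynomial.X * P) = LL l (s + 1) P := by
  induction P using Polynomial.induction_on' with
  | add p q hp hq => rw [mul_add, map_add, map_add, hp, hq]
  | monomial n a =>
    rw [Polynomial.X_mul_monomial, LL_monomial, LL_monomial]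
    congr 2
    ring

lemma LL_X_pow_mul (l : ℕ → R) (k : ℕ) : ∀ (s : ℕ) (P : Polynomial R),
    LL l s (Polynomial.X ^ k * P) = LL l (s + k) P := by
  induction k with
  | zero => intro s P; simp
  | succ k ih =>
    intro s P
    rw [pow_succ', mul_assoc, LL_X_mul, ih]
    congr 2
    ring

lemma LL_C_mul (l : ℕ → R) (s : ℕ) (b : R) (P : Polynomial R) :
    LL l s (Polynomial.C b * P) = b * LL l s P := by
  rw [← Polynomial.smul_eq_C_mul, map_smul, smul_eq_mul]

lemma core1 (l : ℕ → R) (ξ ω : R) (P : Polynomial R) (j s : ℕ) :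
    LL l s ((Polynomial.C ξ + Polynomial.C ω * Polynomial.X) ^ j * P) =
      ∑ k ∈ range (j + 1), (j.choose k : R) * ξ ^ (j - k) * ω ^ k * LL l (s + k) P := by
  rw [add_comm (Polynomial.C ξ), add_pow, sum_mul, map_sum]
  refine sum_congr rfl fun k _ => ?_
  have : (Polynomial.C ω * Polynomial.X) ^ k * Polynomial.C ξ ^ (j - k) * ((j.choose k : ℕ) : Polynomial R) * P
      = Polynomial.C ((j.choose k : R) * ξ ^ (j - k) * ω ^ k) * (Polynomial.X ^ k * P) := by
    simp only [map_mul, map_pow, map_natCast]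
    ring
  rw [this, LL_C_mul, LL_X_pow_mul]

lemma core2 (l : ℕ → R) (ξ ω : R) (P : Polynomial R) (j : ℕ) :
    ξ ∣ LL l 0 (((Polynomial.C ξ + Polynomial.C ω * Polynomial.X) ^ (j + 1) * P).divX) -
      ω ^ (j + 1) * LL l j P := by
  obtain ⟨Q, hQ⟩ : Polynomial.C ξ ∣ (Polynomial.C ξ + Polynomial.C ω * Polynomial.X) ^ (j + 1) -
      (Polynomial.C ω * Polynomial.X) ^ (j + 1) := by
    have := sub_dvd_pow_sub_pow (Polynomial.C ξ + Polynomial.C ω * Polynomial.X)
      (Polynomial.C ω * Polynomial.X) (j + 1)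
    rwa [add_sub_cancel_right] at this
  have h1 : (Polynomial.C ξ + Polynomial.C ω * Polynomial.X) ^ (j + 1) * P =
      Polynomial.C (ω ^ (j + 1)) * (Polynomial.X ^ j * P) * Polynomial.X + Polynomial.C ξ * (Q * P) := by
    rw [sub_eq_iff_eq_add.mp hQ]
    simp only [map_pow]
    ring
  have h2 : ((Polynomial.C ξ + Polynomial.C ω * Polynomial.X) ^ (j + 1) * P).divX =
      Polynomial.C (ω ^ (j + 1)) * (Polynomial.X ^ j * P) + Polynomial.C ξ * (Q * P).divX := by
    rw [h1]
    ext n
    simp only [Polynomial.coeff_divX, Polynomial.coeff_add, Polynomial.coeff_mul_X,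
      Polynomial.coeff_C_mul]
  rw [h2, map_add, LL_C_mul, LL_C_mul, LL_X_pow_mul, zero_add, add_sub_cancel_left]
  exact dvd_mul_right _ _

end core

section core3

variable {A : Type*} [CommRing A]

lemma coeff_one_sub (j a : ℕ) :
    PowerSeries.coeff a ((1 - PowerSeries.X : PowerSeries A) ^ j) = (-1) ^ a * (j.choose a : A) := by
  rw [sub_eq_neg_add, add_pow, map_sum]
  rw [sum_eq_single a]
  · rw [neg_pow, one_pow, mul_one, ← map_natCast (PowerSeries.C (R := A)), ← map_one (PowerSeries.C (R := A)),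
      ← map_neg, ← map_pow]
    rw [PowerSeries.coeff_mul_C, PowerSeries.coeff_C_mul, PowerSeries.coeff_X_pow_self, mul_one]
  · intro b _ hb
    rw [neg_pow, one_pow, mul_one, ← map_natCast (PowerSeries.C (R := A)), ← map_one (PowerSeries.C (R := A)),
      ← map_neg, ← map_pow]
    rw [PowerSeries.coeff_mul_C, PowerSeries.coeff_C_mul, PowerSeries.coeff_X_pow, if_neg (Ne.symm hb)]
    simp
  · intro ha
    rw [mem_range, not_lt] at ha
    rw [Nat.choose_eq_zero_of_lt (by omega)]
    simp

lemma tri (j q : ℕ) (hj : 1 ≤ j) (z : ℕ → A)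
    (h : ∀ r, 1 ≤ r → r ≤ q → ∑ a ∈ range (r + 1), (j.choose a : A) * z (r - a) = 0) :
    (-1) ^ q * z q = (((j - 1 + q).choose (j - 1) : ℕ) : A) * z 0 := by
  set Z : PowerSeries A := PowerSeries.mk fun i => (-1) ^ i * z i with hZ
  have hW : ∀ r, r ≤ q → PowerSeries.coeff r ((1 - PowerSeries.X : PowerSeries A) ^ j * Z) =
      if r = 0 then z 0 else 0 := by
    intro r hr
    rw [PowerSeries.coeff_mul, Nat.sum_antidiagonal_eq_sum_range_succ
      (fun a b => PowerSeries.coeff a ((1 - PowerSeries.X : PowerSeries A) ^ j) * PowerSeries.coeff b Z)]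
    by_cases h0 : r = 0
    · subst h0
      simp [coeff_one_sub, hZ]
    · rw [if_neg h0]
      have := h r (by omega) hr
      calc _ = ∑ a ∈ range (r + 1), (-1) ^ r * ((j.choose a : A) * z (r - a)) := by
            refine sum_congr rfl fun a ha => ?_
            rw [mem_range] at ha
            rw [coeff_one_sub, hZ, PowerSeries.coeff_mk]
            have : (-1 : A) ^ r = (-1) ^ a * (-1) ^ (r - a) := by
              rw [← pow_add]; congr 1; omega
            rw [this]; ring
        _ = 0 := by rw [← mul_sum, this, mul_zero]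
  have hinv : (PowerSeries.invOneSubPow A j).val * ((1 - PowerSeries.X : PowerSeries A) ^ j) = 1 := by
    rw [← PowerSeries.invOneSubPow_inv_eq_one_sub_pow]
    exact (PowerSeries.invOneSubPow A j).val_inv
  have hZ2 : Z = (PowerSeries.invOneSubPow A j).val * ((1 - PowerSeries.X : PowerSeries A) ^ j * Z) := by
    rw [← mul_assoc, hinv, one_mul]
  have h1 : PowerSeries.coeff q Z = (-1) ^ q * z q := by rw [hZ, PowerSeries.coeff_mk]
  rw [← h1, hZ2, PowerSeries.coeff_mul, Nat.sum_antidiagonal_eq_sum_range_succ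
      (fun a b => PowerSeries.coeff a (PowerSeries.invOneSubPow A j).val *
        PowerSeries.coeff b ((1 - PowerSeries.X : PowerSeries A) ^ j * Z)), sum_range_succ]
  rw [sum_eq_zero, zero_add, Nat.sub_self, hW 0 (Nat.zero_le _), if_pos rfl,
    PowerSeries.invOneSubPow_val_eq_mk_sub_one_add_choose_of_pos _ _ hj, PowerSeries.coeff_mk]
  intro a ha
  rw [mem_range] at ha
  rw [hW (q - a) (by omega), if_neg (by omega), mul_zero]

lemma core3 [IsDomain A] [Algebra ℂ A] (ω : A) (hω : ω ≠ 0) (j q : ℕ) (hj : 1 ≤ j)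
    (G : ℕ → Polynomial A)
    (h : ∀ s < q, ∑ k ∈ range (j + 1), (j.choose k : Polynomial A) * Polynomial.X ^ (j - k) *
      (Polynomial.C ω) ^ k * G (s + k) = 0) :
    ω ^ q ∣ (G (j - 1)).coeff 0 := by
  set Y : ℕ → A := fun i => (G (j - 1 + i)).coeff i with hY
  have key : ∀ r, 1 ≤ r → r ≤ q → ∑ a ∈ range (r + 1), (j.choose a : A) * (ω ^ (r - a) * Y (r - a)) = 0 := by
    intro r hr1 hrq
    have h1 := congrArg (fun P => Polynomial.coeff P r) (h (r - 1) (by omega))
    simp only [Polynomial.finsetSum_coeff, Polynomial.coeff_zero] at h1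
    have h2 : ∀ k ∈ range (j + 1), ((j.choose k : Polynomial A) * Polynomial.X ^ (j - k) *
        (Polynomial.C ω) ^ k * G (r - 1 + k)).coeff r =
        (j.choose k : A) * ω ^ k * (if j - k ≤ r then (G (r - 1 + k)).coeff (r - (j - k)) else 0) := by
      intro k _
      have : (j.choose k : Polynomial A) * Polynomial.X ^ (j - k) *
        (Polynomial.C ω) ^ k * G (r - 1 + k) =
        Polynomial.C ((j.choose k : A) * ω ^ k) * (G (r - 1 + k) * Polynomial.X ^ (j - k)) := by
        simp only [map_mul, map_pow, map_natCast]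
        ring
      rw [this, Polynomial.coeff_C_mul, Polynomial.coeff_mul_X_pow']
    rw [sum_congr rfl h2, ← sum_range_reflect] at h1
    have h3 : ω ^ j * ∑ a ∈ range (r + 1), (j.choose a : A) * (ω ^ (r - a) * Y (r - a)) = 0 := by
      have hL : ω ^ j * ∑ a ∈ range (r + 1), (j.choose a : A) * (ω ^ (r - a) * Y (r - a)) =
          ∑ a ∈ range (j + r + 1), if a ≤ j ∧ a ≤ r then (j.choose a : A) * ω ^ (j + r - a) *
            (G (j - 1 + (r - a))).coeff (r - a) else 0 := by
        rw [mul_sum]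
        rw [← sum_subset (s₁ := range (r + 1)) (s₂ := range (j + r + 1))]
        · refine sum_congr rfl fun a ha => ?_
          rw [mem_range] at ha
          by_cases haj : a ≤ j
          · rw [if_pos ⟨haj, by omega⟩]
            have : ω ^ (j + r - a) = ω ^ j * ω ^ (r - a) := by
              rw [← pow_add]; congr 1; omega
            rw [this]; ring
          · rw [if_neg (by omega), Nat.choose_eq_zero_of_lt (by omega)]
            simp
        · intro a ha; rw [mem_range] at ha ⊢; omega
        · intro a _ ha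
          rw [mem_range] at ha
          rw [if_neg (by omega)]
      have hR : ω ^ r * ∑ a ∈ range (j + 1), (j.choose (j + 1 - 1 - a) : A) * ω ^ (j + 1 - 1 - a) *
          (if j - (j + 1 - 1 - a) ≤ r then (G (r - 1 + (j + 1 - 1 - a))).coeff (r - (j - (j + 1 - 1 - a))) else 0) =
          ∑ a ∈ range (j + r + 1), if a ≤ j ∧ a ≤ r then (j.choose a : A) * ω ^ (j + r - a) *
            (G (j - 1 + (r - a))).coeff (r - a) else 0 := by
        rw [mul_sum]
        rw [← sum_subset (s₁ := range (j + 1)) (s₂ := range (j + r + 1))]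
        · refine sum_congr rfl fun a ha => ?_
          rw [mem_range] at ha
          have e1 : j + 1 - 1 - a = j - a := by omega
          have e2 : j - (j - a) = a := by omega
          rw [e1, e2, Nat.choose_symm (by omega)]
          by_cases har : a ≤ r
          · rw [if_pos har, if_pos ⟨by omega, har⟩]
            have : ω ^ (j + r - a) = ω ^ r * ω ^ (j - a) := by
              rw [← pow_add]; congr 1; omega
            have e3 : r - 1 + (j - a) = j - 1 + (r - a) := by omega
            rw [this, e3]; ring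
          · rw [if_neg har, if_neg (by omega)]
            simp
        · intro a ha; rw [mem_range] at ha ⊢; omega
        · intro a _ ha
          rw [mem_range] at ha
          rw [if_neg (by omega)]
      rw [hL, ← hR, h1, mul_zero]
    exact (mul_eq_zero.mp h3).resolve_left (pow_ne_zero _ hω)
  have h4 := tri j q hj (fun i => ω ^ i * Y i) key
  simp only [pow_zero, one_mul] at h4
  have hc : ((((j - 1 + q).choose (j - 1) : ℕ) : ℂ)) ≠ 0 := by
    rw [Nat.cast_ne_zero]
    exact (Nat.choose_pos (Nat.le_add_right _ _)).ne'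
  refine ⟨algebraMap ℂ A (((((j - 1 + q).choose (j - 1) : ℕ) : ℂ))⁻¹) * ((-1) ^ q * Y q), ?_⟩
  have h5 : Y 0 = (G (j - 1)).coeff 0 := by rw [hY]; simp
  rw [← h5]
  have h6 : Y 0 = algebraMap ℂ A (((((j - 1 + q).choose (j - 1) : ℕ) : ℂ))⁻¹) *
      ((((j - 1 + q).choose (j - 1) : ℕ) : A) * Y 0) := by
    rw [← map_natCast (algebraMap ℂ A), ← mul_assoc, ← map_mul, inv_mul_cancel₀ hc, map_one, one_mul]
  rw [h6, ← h4]
  ring

end core3

open MvPolynomial ComplexConjugate Pool.Agent.Helper69.DC Pool.Agent.Helper66.DC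

/-- The algebra hom `h ↦ h(x + t y)`. -/
noncomputable def Ph {ι : Type*} : MvPolynomial ι ℂ →ₐ[ℂ] Polynomial (MvPolynomial (ι ⊕ ι) ℂ) :=
  aeval (fun j => Polynomial.C (X (Sum.inl j)) + Polynomial.C (X (Sum.inr j)) * Polynomial.X)

lemma gam_eq {ι : Type*} (h : MvPolynomial ι ℂ) (i : ℕ) : gam h i = (Ph h).coeff i := rfl

lemma natDegree_Ph {m : ℕ} (h : MvPolynomial (Fin m) ℂ) : (Ph h).natDegree ≤ h.totalDegree := by
  rw [Ph, aeval_def, eval₂_eq']
  refine Polynomial.natDegree_sum_le_of_forall_le _ _ fun u hu => ?_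
  refine Polynomial.natDegree_mul_le.trans ?_
  have h1 : (algebraMap ℂ (Polynomial (MvPolynomial (Fin m ⊕ Fin m) ℂ)) (coeff u h)).natDegree = 0 := by
    rw [IsScalarTower.algebraMap_apply ℂ (MvPolynomial (Fin m ⊕ Fin m) ℂ)
      (Polynomial (MvPolynomial (Fin m ⊕ Fin m) ℂ)), Polynomial.algebraMap_eq, Polynomial.natDegree_C]
  rw [h1, zero_add]
  refine (Polynomial.natDegree_prod_le _ _).trans ?_
  refine le_trans ?_ (le_totalDegree hu)
  rw [Finsupp.sum_fintype _ _ (fun _ => rfl)]
  refine sum_le_sum fun i _ => ?_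
  refine Polynomial.natDegree_pow_le.trans ?_
  refine (Nat.mul_le_mul_left _ (?_ : _ ≤ 1)).trans (by simp)
  refine (Polynomial.natDegree_add_le _ _).trans ?_
  refine max_le (by simp) ?_
  exact (Polynomial.natDegree_C_mul_le _ _).trans Polynomial.natDegree_X_le

/-- **J_W**. -/
theorem h_w : Pool.Agent.Helper66.DC.J_W := by
  intro m d j q β w h l hj hd hdvd hwin
  by_cases h0 : h = 0
  · subst h0
    have : ∀ i, gam (0 : MvPolynomial (Fin m) ℂ) i = 0 := by
      intro i; rw [gam_eq, map_zero, Polynomial.coeff_zero]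
    simp [this]
  obtain ⟨G, hG⟩ := hdvd
  have hw : ∃ i, w i ≠ 0 := by
    by_contra hcon
    push Not at hcon
    apply h0
    rw [hG]
    have : (∑ i, C (w i) * (X i - C (β i)) : MvPolynomial (Fin m) ℂ) = 0 :=
      sum_eq_zero fun i _ => by rw [hcon i, C_0, zero_mul]
    rw [this, zero_pow (by omega), zero_mul]
  obtain ⟨i0, hi0⟩ := hw
  set e : Fin m → ℂ := Pi.single i0 (w i0)⁻¹ with he
  have hwe : ∑ i, w i * e i = 1 := by
    rw [sum_eq_single i0]
    · rw [he, Pi.single_eq_same, mul_inv_cancel₀ hi0]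
    · intro i _ hi; rw [he, Pi.single_eq_of_ne hi, mul_zero]
    · intro hi; exact absurd (mem_univ _) hi
  set ξ : MvPolynomial (Fin m ⊕ Fin m) ℂ := ∑ i, C (w i) * (X (Sum.inl i) - C (β i)) with hξ
  set ω : MvPolynomial (Fin m ⊕ Fin m) ℂ := ∑ i, C (w i) * X (Sum.inr i) with hω
  have hPξ : Ph (∑ i, C (w i) * (X i - C (β i))) = Polynomial.C ξ + Polynomial.C ω * Polynomial.X := by
    rw [map_sum, hξ, hω, map_sum, map_sum, sum_mul, ← sum_add_distrib]
    refine sum_congr rfl fun i _ => ?_
    have hC : ∀ c : ℂ, Ph (C c : MvPolynomial (Fin m) ℂ) = Polynomial.C (C c) := by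
      intro c
      rw [Ph, aeval_C, IsScalarTower.algebraMap_apply ℂ (MvPolynomial (Fin m ⊕ Fin m) ℂ)
        (Polynomial (MvPolynomial (Fin m ⊕ Fin m) ℂ)), Polynomial.algebraMap_eq,
        MvPolynomial.algebraMap_eq]
    have hX : Ph (X i : MvPolynomial (Fin m) ℂ) =
        Polynomial.C (X (Sum.inl i)) + Polynomial.C (X (Sum.inr i)) * Polynomial.X := by
      rw [Ph, aeval_X]
    rw [map_mul, map_sub, hC, hC, hX]
    simp only [map_mul, map_sub]
    ring
  have hPh : Ph h = (Polynomial.C ξ + Polynomial.C ω * Polynomial.X) ^ j * Ph G := by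
    rw [hG, map_mul, map_pow, hPξ]
  have hdeg : (Ph h).natDegree ≤ d := (natDegree_Ph h).trans hd
  -- windows
  have hwin2 : ∀ s < q, ∑ k ∈ range (j + 1), (j.choose k : MvPolynomial (Fin m ⊕ Fin m) ℂ) *
      ξ ^ (j - k) * ω ^ k * LL l (s + k) (Ph G) = 0 := by
    intro s hs
    rw [← core1, ← hPh, LL_eq l s (d + 1) (Ph h) (by omega)]
    exact hwin s hs
  -- the target
  have hT : ∑ i ∈ range d, l i * gam h (i + 1) = LL l 0 ((Ph h).divX) := by
    by_cases hd0 : d = 0
    · subst hd0
      have : (Ph h).divX = 0 := by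
        refine Polynomial.ext fun n => ?_
        rw [Polynomial.coeff_divX, Polynomial.coeff_zero]
        exact Polynomial.coeff_eq_zero_of_natDegree_lt (lt_of_le_of_lt hdeg (Nat.succ_pos n))
      rw [this, map_zero, range_zero, sum_empty]
    · rw [LL_eq l 0 d (Ph h).divX (by rw [Polynomial.natDegree_divX_eq_natDegree_tsub_one]; omega)]
      refine sum_congr rfl fun i _ => ?_
      rw [Polynomial.coeff_divX, add_zero, gam_eq]
  obtain ⟨j', rfl⟩ : ∃ j', j = j' + 1 := ⟨j - 1, by omega⟩
  obtain ⟨u, hu⟩ := core2 l ξ ω (Ph G) j'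
  rw [← hPh, ← hT, sub_eq_iff_eq_add] at hu
  set θ : MvPolynomial (Fin m ⊕ Fin m) ℂ →ₐ[ℂ] Polynomial (MvPolynomial (Fin m) ℂ) :=
    aeval (Sum.elim (fun i => Polynomial.C (C (β i)) + Polynomial.C (C (e i)) * Polynomial.X)
      (fun i => Polynomial.C (X i))) with hθ
  have hθC : ∀ c : ℂ, θ (C c) = Polynomial.C (C c) := by
    intro c
    rw [hθ, aeval_C, IsScalarTower.algebraMap_apply ℂ (MvPolynomial (Fin m) ℂ)
        (Polynomial (MvPolynomial (Fin m) ℂ)), Polynomial.algebraMap_eq,
        MvPolynomial.algebraMap_eq]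
  have hθl : ∀ i, θ (X (Sum.inl i)) = Polynomial.C (C (β i)) + Polynomial.C (C (e i)) * Polynomial.X := by
    intro i; rw [hθ, aeval_X]; rfl
  have hθr : ∀ i, θ (X (Sum.inr i)) = Polynomial.C (X i) := by
    intro i; rw [hθ, aeval_X]; rfl
  set ω0 : MvPolynomial (Fin m) ℂ := ∑ i, C (w i) * X i with hω0
  have hθω : θ ω = Polynomial.C ω0 := by
    rw [hω, hω0, map_sum, map_sum]
    refine sum_congr rfl fun i _ => ?_
    rw [map_mul, map_mul, hθC, hθr]
  have hθξ : θ ξ = Polynomial.X := by
    rw [hξ, map_sum]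
    calc _ = ∑ i, Polynomial.C (C (w i * e i)) * Polynomial.X := by
          refine sum_congr rfl fun i _ => ?_
          rw [map_mul, map_sub, hθC, hθC, hθl]
          simp only [map_mul]
          ring
      _ = Polynomial.C (C (∑ i, w i * e i)) * Polynomial.X := by
          rw [map_sum, map_sum, sum_mul]
      _ = Polynomial.X := by rw [hwe]; simp
  have hat : ∀ P, atx β P = (θ P).coeff 0 := by
    intro P
    have : (atx β) = ((Polynomial.aeval (0 : MvPolynomial (Fin m) ℂ)).restrictScalars ℂ).comp θ := by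
      apply MvPolynomial.algHom_ext
      intro i
      rcases i with i | i
      · simp only [AlgHom.comp_apply, AlgHom.restrictScalars_apply]
        rw [hθl, atx, aeval_X]
        simp
      · simp only [AlgHom.comp_apply, AlgHom.restrictScalars_apply]
        rw [hθr, atx, aeval_X]
        simp
    rw [this]
    simp only [AlgHom.comp_apply, AlgHom.restrictScalars_apply]
    rw [Polynomial.coeff_zero_eq_aeval_zero]
  have hω0ne : ω0 ≠ 0 := by
    intro hcon
    have h1 := congrArg (eval e) hcon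
    rw [hω0, map_sum, map_zero] at h1
    simp only [map_mul, eval_C, eval_X] at h1
    rw [hwe] at h1
    exact one_ne_zero h1
  have hk := core3 ω0 hω0ne (j' + 1) q (by omega) (fun k => θ (LL l k (Ph G))) (by
    intro s hs
    have h1 := congrArg θ (hwin2 s hs)
    rw [map_zero, map_sum] at h1
    rw [← h1]
    refine sum_congr rfl fun k _ => ?_
    rw [map_mul, map_mul, map_mul, map_pow, map_pow, map_natCast, hθξ, hθω])
  rw [hu, map_add, map_mul, map_mul, map_pow, hat ξ, hθξ, Polynomial.coeff_X_zero, zero_mul, zero_add,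
    hat ω, hθω, Polynomial.coeff_C_zero, pow_add]
  refine mul_dvd_mul_left _ ?_
  rw [hat]
  simpa using hk

end Pool.Agent.Helper91.DC
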